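import Pool.Agent.H71.CR.StmtW

/-!
# Board cwr_modules, row W3

The limit along an ultrafilter of sets with few classes over their complements has few classes
over its complement.
-/

set_option autoImplicit false

open Set Pool.Agent.TK Pool.Agent.H71.VK

namespace Pool.Agent.CR

theorem pf_W3 : W3 := by
  intro n c k V hU A hF
  classical
  obtain ⟨n0, hn0⟩ := V.nonempty_of_mem hF
  obtain ⟨g0, hg0⟩ := hn0
  -- the maps of the single sets
  let f : ℕ → List ℕ → Fin k := fun i =>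
    if h : Few n c k ((Finset.range i : Finset ℕ) \ (A i) : Set ℕ) (A i) then h.choose else g0
  have hf : ∀ i, Few n c k ((Finset.range i : Finset ℕ) \ (A i) : Set ℕ) (A i) →
      ∀ x x' : List ℕ, x.length ≤ n.2 → x.length = x'.length →
      (∀ a ∈ x, a ∈ (A i : Set ℕ)) → (∀ a ∈ x', a ∈ (A i : Set ℕ)) → f i x = f i x' →
      SO c ((Finset.range i : Finset ℕ) \ (A i) : Set ℕ) x x' := by
    intro i h
    have h1 : f i = h.choose := dif_pos h
    rw [h1]
    exact h.choose_spec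
  -- the limit map
  have hex : ∀ x : List ℕ, ∃ j : Fin k, {i | f i x = j} ∈ V := by
    intro x
    obtain ⟨j, hj⟩ := Ultrafilter.eq_pure_of_finite (V.map fun i => f i x)
    refine ⟨j, ?_⟩
    have h1 : ({j} : Set (Fin k)) ∈ V.map fun i => f i x := by
      rw [hj, Ultrafilter.mem_pure]
      rfl
    rw [Ultrafilter.mem_map] at h1
    exact h1
  choose F hFz using hex
  -- finitely many points
  have hall : ∀ (l : List ℕ) (p : ℕ → ℕ → Prop), (∀ a ∈ l, ∀ᶠ i in (V : Filter ℕ), p a i) →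
      ∀ᶠ i in (V : Filter ℕ), ∀ a ∈ l, p a i := by
    intro l p h
    exact (Filter.eventually_all_finite (List.finite_toSet l)).2 h
  refine ⟨F, ?_⟩
  intro x x' hx hl ha ha' hfa
  refine ⟨hl, fun D hD => ?_⟩
  have e1 : ∀ᶠ i in (V : Filter ℕ), ∀ a ∈ x, a ∈ A i := hall x _ fun a h => ha a h
  have e2 : ∀ᶠ i in (V : Filter ℕ), ∀ a ∈ x', a ∈ A i := hall x' _ fun a h => ha' a h
  have e3 : ∀ᶠ i in (V : Filter ℕ), ∀ z ∈ D, z ∉ A i ∧ z < i := by
    refine hall D _ fun z hz => ?_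
    have h1 : {i | z ∈ A i} ∉ V := hD z hz
    have h2 : {i | z ∈ A i}ᶜ ∈ V := by
      rw [Ultrafilter.compl_mem_iff_notMem]
      exact h1
    have h3 : {i | z + 1 ≤ i} ∈ V := hU (z + 1)
    filter_upwards [h2, h3] with i hi1 hi2
    exact ⟨hi1, hi2⟩
  have e4 : ∀ᶠ i in (V : Filter ℕ), f i x = F x := hFz x
  have e5 : ∀ᶠ i in (V : Filter ℕ), f i x' = F x' := hFz x'
  have e6 : ∀ᶠ i in (V : Filter ℕ),
      Few n c k ((Finset.range i : Finset ℕ) \ (A i) : Set ℕ) (A i) := hF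
  obtain ⟨i, h1, h2, h3, h4, h5, h6⟩ :=
    (e1.and (e2.and (e3.and (e4.and (e5.and e6))))).exists
  have h7 := hf i h6 x x' hx hl (fun a h => by exact_mod_cast h1 a h)
    (fun a h => by exact_mod_cast h2 a h) (by rw [h4, h5, hfa])
  refine h7.2 D fun y hy => ⟨?_, ?_⟩
  · rw [Finset.coe_range, Set.mem_Iio]
    exact (h3 y hy).2
  · intro h
    exact (h3 y hy).1 (by exact_mod_cast h)

end Pool.Agent.CR
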